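import Mathlib
import Pool.Agent.H52AD.Fin

set_option autoImplicit false

/-!
# Primes `n` such that the numbers `a n + 1` have at most three prime factors, for almost all sets of multipliers

Choose `k + 1` multipliers from an arbitrary set `A` of positive integers `a ≤ x ^ C`, where `C > 0` is any constant.
For all choices `T` without a fixed prime divisor, up to at most `(|A| choose k) x ^ C / log(x) ^ U` exceptions, there
are `≫ x / log(x) ^ (k + 2)` primes `n ≤ x` such that ALL the `k + 1` numbers `a n + 1`, `a ∈ T`, have at most three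
prime factors, counted with multiplicity, all of them at least `x ^ w`, for any `w < (1 + C) / 5`. So the number of the
prime factors depends neither on the number of the multipliers nor on their size.

Proof. For arbitrary bounded coefficients `α_a` and `f_n` the sequence `a n + 1`, `a ≤ x ^ C`, `n ≤ x`, with these
weights has level of distribution `(x ^ (1 + C)) ^ (1 / 2)` relative to the set of the numbers without small prime
factors (bilinear large sieve, after the primes `≤ exp(κ log x / log log x)` have been removed by the fundamental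
lemma). With `f_n` a product of indicator functions (of `n` being a prime, and of the numbers `b n + 1` for the
multipliers `b` which have already been treated) the weighted linear sieve replaces the conditions of having no small prime
factors one after the other by the condition of having at most three prime factors.
-/

namespace Pool.Agent.Results.MP_bca3e5_nt.AlmostPrimesAlmostAll

open Finset Filter

/-- The set `T` of positive integers is admissible in the sense of the problem: no prime divides
`n * ∏ (a n + 1)` for all positive integers `n`. -/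
def Admissible (T : Finset ℕ) : Prop :=
  ∀ p : ℕ, p.Prime → ¬ ∀ n : ℕ, 1 ≤ n → p ∣ n * ∏ a ∈ T, (a * n + 1)

open Classical in
/-- The number of the primes `n ≤ x` such that every `a n + 1`, `a ∈ T`, has at most three prime factors,
counted with multiplicity, all of them at least `x ^ w`. -/
noncomputable def count (w x : ℝ) (T : Finset ℕ) : ℕ :=
  ((Icc 1 ⌊x⌋₊).filter (fun n => n.Prime ∧ ∀ a ∈ T, (a * n + 1).primeFactorsList.length ≤ 3 ∧
    ∀ q : ℕ, q.Prime → q ∣ a * n + 1 → x ^ w ≤ q)).card

open Pool.Agent.H52AD in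
open Classical in
/-- Let `C > 0` and `w < (1 + C) / 5` be real numbers. For every natural number `k` there is `c > 0`, and for every
`U` there is `x₀`, such that for all real `x ≥ x₀` and EVERY finite set `A` of positive integers `a ≤ x ^ C`: for all
but at most `(|A| choose k) x ^ C / log(x) ^ U` of the admissible sets `T` of `k + 1` elements of `A` there are at
least `c x / log(x) ^ (k + 2)` primes `n ≤ x` such that all the numbers `a n + 1`, `a ∈ T`, have at most three
prime factors, all of them at least `x ^ w`. -/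
theorem result (k : ℕ) (C w : ℝ) (hC : 0 < C) (hw : w < (1 + C) / 5) : ∃ c : ℝ, 0 < c ∧
    ∀ U : ℕ, ∃ x₀ : ℝ, ∀ x : ℝ, x₀ ≤ x → ∀ A : Finset ℕ, (∀ a ∈ A, 1 ≤ a ∧ (a : ℝ) ≤ x ^ C) →
      (((A.powersetCard (k + 1)).filter (fun T => Admissible T ∧
        (count w x T : ℝ) < c * (x / Real.log x ^ (k + 2)))).card : ℝ) ≤
        A.card.choose k * (x ^ C / Real.log x ^ U) := by
  obtain ⟨w', hw'⟩ : ∃ w' : ℝ, w' = (max w 0 + (1 + C) / 5) / 2 := ⟨_, rfl⟩
  have hm : max w 0 < (1 + C) / 5 := max_lt hw (by linarith)
  have hw1 : w < w' := by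
    have := le_max_left w 0
    rw [hw']; linarith
  have hw0 : 0 < w' := by
    have := le_max_right w 0
    rw [hw']; linarith
  have hw2 : w' < (1 + C) / 5 := by rw [hw']; linarith
  have hw3 : max w 0 < w' := by rw [hw']; linarith
  obtain ⟨c, hc, H⟩ := mainN k C w' hC hw0 hw2
  refine ⟨c / 2, by positivity, fun U => ?_⟩
  have e1 : ∀ᶠ N : ℕ in atTop, (2 : ℝ) ^ (max w 0) ≤ (N : ℝ) ^ (w' - max w 0) :=
    tendsto_natCast_atTop_atTop.eventually ((tendsto_rpow_atTop (by linarith)).eventually_ge_atTop _)
  have e2 : ∀ᶠ N : ℕ in atTop, (2 : ℝ) ^ (U + 1) ≤ Real.log N :=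
    (Real.tendsto_log_atTop.comp tendsto_natCast_atTop_atTop).eventually_ge_atTop _
  obtain ⟨N₀, hN₀⟩ := eventually_atTop.1 ((H (U + 1)).and (e1.and (e2.and (eventually_ge_atTop 3))))
  refine ⟨(N₀ : ℝ) + 3, fun x hx A hA => ?_⟩
  have hN₀0 : (0 : ℝ) ≤ N₀ := Nat.cast_nonneg _
  have hx3 : 3 ≤ x := by linarith
  have hx0 : 0 < x := by linarith
  obtain ⟨N, hN⟩ : ∃ N : ℕ, N = ⌊x⌋₊ := ⟨_, rfl⟩
  have hNN : N₀ ≤ N := by
    rw [hN]
    exact Nat.le_floor (by linarith)
  obtain ⟨HN, f1, f2, f3⟩ := hN₀ N hNN
  have hNx : (N : ℝ) ≤ x := by rw [hN]; exact Nat.floor_le hx0.le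
  have hxN : x < N + 1 := by rw [hN]; exact Nat.lt_floor_add_one x
  have hNr : (3 : ℝ) ≤ N := by exact_mod_cast f3
  have hN0 : (0 : ℝ) < N := by linarith
  have hx2N : x ≤ 2 * N := by linarith
  have hxC : 1 ≤ x ^ C := Real.one_le_rpow (by linarith) hC.le
  obtain ⟨M, hM⟩ : ∃ M : ℕ, M = ⌊x ^ C⌋₊ := ⟨_, rfl⟩
  have hMx : (M : ℝ) ≤ x ^ C := by rw [hM]; exact Nat.floor_le (by linarith)
  have hM1 : 1 ≤ M := by rw [hM]; exact Nat.le_floor (by exact_mod_cast hxC)
  have hM1r : (1 : ℝ) ≤ M := by exact_mod_cast hM1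
  have hxM : x ^ C < M + 1 := by rw [hM]; exact Nat.lt_floor_add_one _
  have hA' : A ⊆ Icc 1 M := by
    intro a ha
    rw [mem_Icc]
    refine ⟨(hA a ha).1, ?_⟩
    rw [hM]
    exact Nat.le_floor (hA a ha).2
  have hlogN : 0 < Real.log N := Real.log_pos (by linarith)
  have hlogx : Real.log N ≤ Real.log x := Real.log_le_log hN0 hNx
  have hlogx0 : 0 < Real.log x := by linarith
  have hlog2 : Real.log x ≤ 2 * Real.log N := by
    have h1 : Real.log x ≤ Real.log (2 * N) := Real.log_le_log hx0 hx2N
    rw [Real.log_mul (by norm_num) hN0.ne'] at h1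
    have h2 : Real.log 2 ≤ Real.log N := Real.log_le_log (by norm_num) (by linarith)
    linarith
  have hpw : x ^ w ≤ (N : ℝ) ^ w' := by
    calc x ^ w ≤ x ^ (max w 0) := Real.rpow_le_rpow_of_exponent_le (by linarith) (le_max_left _ _)
      _ ≤ (2 * (N : ℝ)) ^ (max w 0) := Real.rpow_le_rpow hx0.le hx2N (le_max_right _ _)
      _ = (2 : ℝ) ^ (max w 0) * (N : ℝ) ^ (max w 0) := Real.mul_rpow (by norm_num) hN0.le
      _ ≤ (N : ℝ) ^ (w' - max w 0) * (N : ℝ) ^ (max w 0) :=
          mul_le_mul_of_nonneg_right f1 (by positivity)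
      _ = (N : ℝ) ^ w' := by
          rw [← Real.rpow_add hN0]
          congr 1
          ring
  have hcnt : ∀ T : Finset ℕ, cntN w' N T ≤ count w x T := by
    intro T
    unfold cntN count
    rw [← hN]
    apply card_le_card
    intro n hn
    rw [mem_filter] at hn ⊢
    refine ⟨hn.1, hn.2.1, fun a ha => ⟨(hn.2.2 a ha).1, fun q hq hqd => hpw.trans ((hn.2.2 a ha).2 q hq hqd)⟩⟩
  have hmain := HN M ((Real.rpow_le_rpow hN0.le hNx hC.le).trans (by linarith)) (by
      refine hMx.trans ?_
      rw [← Real.mul_rpow (by norm_num) hN0.le]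
      exact Real.rpow_le_rpow hx0.le hx2N hC.le) A hA'
    ((A.powersetCard (k + 1)).filter (fun T => Admissible T ∧
        (count w x T : ℝ) < c / 2 * (x / Real.log x ^ (k + 2)))) (by
      intro T hT
      rw [mem_filter] at hT
      obtain ⟨b1, b2, b3⟩ := hT
      refine ⟨b1, fun p hp => ?_, ?_⟩
      · have h7 := b2 p hp
        push Not at h7
        obtain ⟨n, _, hn2⟩ := h7
        refine ⟨n, fun h => hn2 (h.mul_right _), fun a ha hd => ?_⟩
        exact hn2 (Dvd.dvd.mul_left (hd.trans (dvd_prod_of_mem (fun a => a * n + 1) ha)) _)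
      · have h1 : (cntN w' N T : ℝ) ≤ count w x T := by exact_mod_cast hcnt T
        refine h1.trans_lt (b3.trans_le ?_)
        have h2 : x / Real.log x ^ (k + 2) ≤ 2 * N / Real.log N ^ (k + 2) :=
          div_le_div₀ (by positivity) hx2N (by positivity) (pow_le_pow_left₀ hlogN.le hlogx _)
        calc c / 2 * (x / Real.log x ^ (k + 2)) ≤ c / 2 * (2 * N / Real.log N ^ (k + 2)) :=
              mul_le_mul_of_nonneg_left h2 (by positivity)
          _ = c * (N / Real.log N ^ (k + 2)) := by ring)
  refine hmain.trans (mul_le_mul_of_nonneg_left ?_ (Nat.cast_nonneg _))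
  have h3 : Real.log x ^ U ≤ Real.log N ^ (U + 1) := by
    calc Real.log x ^ U ≤ (2 * Real.log N) ^ U := pow_le_pow_left₀ hlogx0.le hlog2 U
      _ = 2 ^ U * Real.log N ^ U := mul_pow _ _ _
      _ ≤ Real.log N * Real.log N ^ U := by
          apply mul_le_mul_of_nonneg_right _ (by positivity)
          refine le_trans ?_ f2
          exact pow_le_pow_right₀ (by norm_num) (by omega)
      _ = _ := by ring
  exact div_le_div₀ (by positivity) hMx (by positivity) h3

end Pool.Agent.Results.MP_bca3e5_nt.AlmostPrimesAlmostAll
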