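import Pool.Agent.R498.MP.StrC

set_option autoImplicit false

/-!
# Primes `p` with index in a residue class and almost primes `a p + 1`, `a ∈ A`
-/

namespace Pool.Agent.Results.MP_bca3e5_nt.IndexClasses

open Filter

/-- `n` has at most `r` prime factors, counted with multiplicity, all of them at least `w`. -/
def AlmostPrime (r : ℕ) (w : ℝ) (n : ℕ) : Prop :=
  n.primeFactorsList.length ≤ r ∧ ∀ q : ℕ, q.Prime → q ∣ n → w ≤ q

/-- The `j`-th prime: `pr 1 = 2`, `pr 2 = 3`, and so on. -/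
noncomputable def pr (j : ℕ) : ℕ := Nat.nth Nat.Prime (j - 1)

/-- The polynomial `∏ (a X + 1)`. -/
noncomputable def F (A : Finset ℕ) : Polynomial ℤ :=
  ∏ a ∈ A, (Polynomial.C (a : ℤ) * Polynomial.X + 1)

theorem F_eval (A : Finset ℕ) (n : ℤ) : (F A).eval n = ∏ a ∈ A, ((a : ℤ) * n + 1) := by
  simp [F, Polynomial.eval_prod]

theorem F_nat (A : Finset ℕ) (n : ℕ) : (F A).eval (n : ℤ) = ((∏ a ∈ A, (a * n + 1) : ℕ) : ℤ) := by
  rw [F_eval]
  push_cast
  rfl

/-- An admissible set does not contain `1` (take the prime `2`). -/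
theorem two_le (A : Finset ℕ) (hpos : ∀ a ∈ A, 0 < a)
    (hadm : ∀ p : ℕ, p.Prime → ∃ n : ℕ, 1 ≤ n ∧ ¬ p ∣ n * ∏ a ∈ A, (a * n + 1)) (a : ℕ) (ha : a ∈ A) :
    2 ≤ a := by
  by_contra hcon
  have h1 : a = 1 := by have := hpos a ha; omega
  subst h1
  obtain ⟨n, -, hn⟩ := hadm 2 Nat.prime_two
  apply hn
  rcases Nat.even_or_odd n with h | h
  · exact (h.two_dvd).mul_right _
  · refine Dvd.dvd.mul_left (Dvd.dvd.trans ?_ (Finset.dvd_prod_of_mem (fun a => a * n + 1) ha)) _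
    have : Even (1 * n + 1) := by
      rw [one_mul]
      exact h.add_one
    exact this.two_dvd

theorem nonzero (A : Finset ℕ) (h2 : ∀ a ∈ A, 2 ≤ a) (n : ℤ) : (F A).eval n ≠ 0 := by
  rw [F_eval, Finset.prod_ne_zero_iff]
  intro a ha h
  have h1 : ((a : ℕ) : ℤ) ∣ 1 := ⟨-n, by linarith⟩
  have h3 : a ∣ 1 := by exact_mod_cast h1
  have := Nat.dvd_one.1 h3
  have := h2 a ha
  omega

/-- **Strings of primes `p` with `π(p)` in a residue class and almost primes `a p + 1`, `a ∈ A`.** Let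
`A` be an admissible finite set of positive integers, `q` squarefree, `c ∏ (a c + 1)` coprime to `q`
(for instance `q = 1`), `u ≥ 1` and `r ≥ 0`. There are `C`, `R` and `δ > 0` such that for every `b` and
all large `N` there is a `t ≥ 1` such that the `r + 1` primes `p_j`,
`j = π(p_j) = u t + b, u (t + 1) + b, ..., u (t + r) + b`, lie in `(N, 2 N]`, in an interval of length
at most `C`, they are all `≡ c` modulo `q`, and for each of them, `p` say, all the `a p + 1`, `a ∈ A`,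
have at most `R` prime factors, all of them at least `N ^ δ`. -/
theorem result (A : Finset ℕ) (hpos : ∀ a ∈ A, 0 < a)
    (hadm : ∀ p : ℕ, p.Prime → ∃ n : ℕ, 1 ≤ n ∧ ¬ p ∣ n * ∏ a ∈ A, (a * n + 1))
    (q c : ℕ) (hq : Squarefree q) (hc : Nat.Coprime (c * ∏ a ∈ A, (a * c + 1)) q)
    (u r : ℕ) (hu : 0 < u) :
    ∃ (C R : ℕ) (δ : ℝ), 0 < δ ∧ ∀ b : ℕ, ∀ᶠ N : ℕ in atTop, ∃ t : ℕ, 0 < t ∧
      N < pr (u * t + b) ∧ pr (u * (t + r) + b) ≤ 2 * N ∧
      pr (u * (t + r) + b) ≤ pr (u * t + b) + C ∧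
      ∀ i ≤ r, pr (u * (t + i) + b) ≡ c [MOD q] ∧
        ∀ a ∈ A, AlmostPrime R ((N : ℝ) ^ δ) (a * pr (u * (t + i) + b) + 1) := by
  obtain ⟨C, R, δ, hδ, hmain⟩ := Pool.Agent.R498.MP.index_runsC (F A)
    (fun n _ => nonzero A (two_le A hpos hadm) n)
    (fun p hp => by
      obtain ⟨n, -, hn⟩ := hadm p hp
      refine ⟨n, fun h => hn ?_⟩
      rw [F_nat] at h
      exact_mod_cast h) q c hq (fun p hp hpq hd => by
      rw [F_nat] at hd
      have h1 : p ∣ c * ∏ a ∈ A, (a * c + 1) := by exact_mod_cast hd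
      exact hp.one_lt.ne' (Nat.eq_one_of_dvd_coprimes hc h1 hpq)) u r hu
  refine ⟨C, R, δ, hδ, fun b => ?_⟩
  filter_upwards [hmain (u + b - 1)] with N hN
  obtain ⟨k, h1, h2, h3, h4⟩ := hN
  have hj : ∀ i, pr (u * (k + 1 + i) + b) = Nat.nth Nat.Prime (u * (k + i) + (u + b - 1)) := by
    intro i
    unfold pr
    congr 1
    have : u * (k + 1 + i) = u * (k + i) + u := by ring
    omega
  refine ⟨k + 1, Nat.succ_pos k, ?_, ?_, ?_, fun i hi => ?_⟩
  · have := hj 0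
    rw [add_zero, add_zero] at this
    rw [this]
    exact h1
  · rw [hj r]
    exact h2
  · have := hj 0
    rw [add_zero, add_zero] at this
    rw [hj r, this]
    exact h3
  · rw [hj i]
    obtain ⟨g1, g2⟩ := h4 i hi
    obtain ⟨-, g3, g4⟩ := g2
    rw [F_nat] at g3 g4
    rw [Int.natAbs_natCast] at g3
    refine ⟨g1, fun a ha => ?_⟩
    have hdvd : a * Nat.nth Nat.Prime (u * (k + i) + (u + b - 1)) + 1 ∣
        ∏ a ∈ A, (a * Nat.nth Nat.Prime (u * (k + i) + (u + b - 1)) + 1) :=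
      Finset.dvd_prod_of_mem (fun a => a * Nat.nth Nat.Prime (u * (k + i) + (u + b - 1)) + 1) ha
    have hne : ∏ a ∈ A, (a * Nat.nth Nat.Prime (u * (k + i) + (u + b - 1)) + 1) ≠ 0 :=
      Finset.prod_ne_zero_iff.2 fun a _ => Nat.succ_ne_zero _
    exact ⟨(Nat.primeFactorsList_sublist_of_dvd hdvd hne).length_le.trans g3,
      fun l hl hd => g4 l hl (by exact_mod_cast hd.trans hdvd)⟩

end Pool.Agent.Results.MP_bca3e5_nt.IndexClasses
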