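import Pool.Agent.TH977.PW.Inst

set_option autoImplicit false

/-!
# Regular neighbourhoods of the primes `p` for which all `a p + 1`, `a ∈ A`, are also prime

Let `R A r` be the set of the `m` for which all prime factors of `m` and of the `a m + 1`, `a ∈ A`, are
larger than `m ^ (1 / r)`; it contains all primes `p` for which all `a p + 1` are prime. With
`k = |A| + 1` there are at least `κ X / log ^ k X` primes `p` in `(X, 2 X]` in `R A r` such that the
`a p + 1` have at most `r` prime factors. Let `M` be an ARBITRARY subset of `R A r` (for example the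
set of all primes `p` for which the `a p + 1` are prime). In every short interval `(X, X + Y]`,
`X ^ θ ≤ Y ≤ X / 2`, all but `ε Y / log ^ k X` of the elements of `M` are regular points of `M`: the
elements of `M` in ALL intervals of length between `log ^ k X / c` and `Y` around them have the right
order, and constant density up to `δ` at all but `B (ε, δ)` dyadic scales.
-/

namespace Pool.Agent.Results.MP_bca3e5_nt.RegularNeighbourhoods

open Finset Filter
open Pool.Agent.TH977.PW (N Irregular)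

/-- All prime factors of `m` and of the `a m + 1`, `a ∈ A`, are larger than `m ^ (1 / r)`. -/
def R (A : Finset ℕ) (r : ℕ) : Set ℕ :=
  {m | ∀ p : ℕ, p.Prime → (p ∣ m ∨ ∃ a ∈ A, p ∣ a * m + 1) → (m : ℝ) ^ (1 / (r : ℝ)) < (p : ℝ)}

theorem val_cast (a m : ℕ) : (a : ℤ) * (m : ℤ) + 1 = ((a * m + 1 : ℕ) : ℤ) := by
  push_cast
  ring

/-- **Regular neighbourhoods of the primes `p` for which all `a p + 1`, `a ∈ A`, are also prime.** -/
theorem result (A : Finset ℕ) (hpos : ∀ a ∈ A, 0 < a)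
    (hadm : ∀ p : ℕ, p.Prime → ∃ n : ℕ, 1 ≤ n ∧ ¬ p ∣ n * ∏ a ∈ A, (a * n + 1))
    (θ : ℝ) (hθ : 0 < θ) (hθ1 : θ ≤ 1) :
    ∃ r₀ : ℕ, 2 ≤ r₀ ∧ ∀ r : ℕ, r₀ ≤ r →
      (∀ p : ℕ, p.Prime → (∀ a ∈ A, (a * p + 1).Prime) → p ∈ R A r) ∧
      (∃ κ : ℝ, 0 < κ ∧ ∀ᶠ X : ℕ in atTop, κ * X / Real.log X ^ (A.card + 1) ≤
        N {p | p.Prime ∧ p ∈ R A r ∧ ∀ a ∈ A, (a * p + 1).primeFactorsList.length ≤ r} X (2 * X)) ∧
      ∀ ε : ℝ, 0 < ε → ∃ c : ℝ, 0 < c ∧ ∀ δ : ℝ, 0 < δ → ∃ B : ℕ,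
        ∀ᶠ X : ℕ in atTop, ∀ Y : ℕ, (X : ℝ) ^ θ ≤ Y → 2 * Y ≤ X → ∀ M : Set ℕ, M ⊆ R A r →
          (N (Irregular M (A.card + 1) c δ B X Y) X (X + Y) : ℝ) ≤
            ε * Y / Real.log X ^ (A.card + 1) := by
  obtain ⟨r0, hr0, h⟩ := Pool.Agent.TH977.PW.final_lin_prime (ι := {a : ℕ // a ∈ A})
    (fun i => i.1) (fun _ => 1) (fun i => hpos i.1 i.2)
    (fun i => isCoprime_one_right) (fun i j hij _ => Subtype.ext hij)
    (fun i h => one_ne_zero h.2)
    (fun p hp => by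
      obtain ⟨n, -, hn⟩ := hadm p hp
      refine ⟨n, fun h => hn (h.mul_right _), fun i h => hn (Dvd.dvd.mul_left ?_ _)⟩
      rw [val_cast] at h
      have h1 : p ∣ i.1 * n + 1 := by exact_mod_cast h
      exact h1.trans (Finset.dvd_prod_of_mem (fun a => a * n + 1) i.2))
    (fun r => R A r)
    (fun r => {p | p.Prime ∧ p ∈ R A r ∧ ∀ a ∈ A, (a * p + 1).primeFactorsList.length ≤ r})
    (A.card + 1) (by rw [Fintype.card_coe])
    (fun r m _ hm => ⟨fun p hp hd => hm p hp (Or.inl hd), fun i p hp hd => hm p hp (Or.inr ⟨i.1, i.2, by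
      rw [val_cast] at hd
      exact_mod_cast hd⟩)⟩)
    (fun r m hr hm h1 h2 => ⟨hm, fun p hp hd => by
      rcases hd with hd | ⟨a, ha, hd⟩
      · exact Pool.Agent.TH977.PW.rpow_lt_dvd r m p hr hm hp hd
      · refine h1 ⟨a, ha⟩ p hp ?_
        rw [val_cast]
        exact_mod_cast hd, fun a ha => by
      have h3 := h2 ⟨a, ha⟩
      rw [val_cast, Int.natAbs_natCast] at h3
      exact h3⟩) θ hθ hθ1
  refine ⟨r0, hr0, fun r hr => ⟨fun p hp hq l hl hd => ?_, (h r hr).1, (h r hr).2⟩⟩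
  rcases hd with hd | ⟨a, ha, hd⟩
  · exact Pool.Agent.TH977.PW.rpow_lt_dvd r p l (hr0.trans hr) hp hl hd
  · rw [(Nat.prime_dvd_prime_iff_eq hl (hq a ha)).1 hd]
    refine Pool.Agent.TH977.PW.rpow_lt_of_le r p (a * p + 1) (hr0.trans hr) hp.two_le ?_
    have := hpos a ha
    nlinarith

end Pool.Agent.Results.MP_bca3e5_nt.RegularNeighbourhoods
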