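import Pool.Agent.Y816.PD.UniS
import Pool.Agent.Y816.PD.UniL

set_option autoImplicit false

/-!
# Almost primes `n, a n + 1`, `a ∈ A`, with restricted digits, uniformly in `A` and in short intervals

The digits of `j = n - N` in base `b` at the places `i < K` belong to arbitrary sets `E i`, which may be so
small that only the proportion `exp (- c K)` of all digit strings is allowed. Everything is uniform in the
admissible set `A ⊆ [1, b ^ (D K)]` with `s` elements, in `N ≤ b ^ (D K)` and in the sets of digits.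
-/

namespace Pool.Agent.Results.MP_bca3e5_nt.RestrictedDigits

open Finset Filter Polynomial

/-- The product `n ∏ (a n + 1)`, `a ∈ A`. -/
def F (A : Finset ℕ) (n : ℕ) : ℕ := n * ∏ a ∈ A, (a * n + 1)

/-- `A` is admissible. -/
def Admissible (A : Finset ℕ) : Prop := ∀ p : ℕ, p.Prime → ∃ n : ℕ, 1 ≤ n ∧ ¬ p ∣ F A n

/-- The product over the primes `p ≤ x` of `1 - ω(p) / p`, with `ω(p)` the number of the residues `n` modulo
`p` with `p ∣ n ∏ (a n + 1)`. -/
noncomputable def V (A : Finset ℕ) (x : ℕ) : ℝ := ∏ p ∈ (Icc 1 x).filter Nat.Prime,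
  (1 - (((range p).filter (fun n : ℕ => p ∣ F A n)).card : ℝ) / p)

/-- The number of the `j < b ^ K` whose base `b` digit at the place `i` belongs to `E i` for all `i < K`,
for which `N + j` belongs to `S`. -/
noncomputable def count (b K : ℕ) (E : ℕ → Finset ℕ) (N : ℕ) (S : Set ℕ) : ℕ :=
  {j : ℕ | j < b ^ K ∧ (∀ i < K, j / b ^ i % b ∈ E i) ∧ N + j ∈ S}.ncard

/-- The `n` for which `n ∏ (a n + 1)` has at most `r` prime factors, all of them larger than `y ^ (1 / r)`. -/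
def Almost (A : Finset ℕ) (r y : ℕ) : Set ℕ :=
  {n | (F A n).primeFactorsList.length ≤ r ∧ ∀ p : ℕ, p.Prime → p ∣ F A n → y < p ^ r}

/-- The `n` of the question: `n` and all the `a n + 1` are primes. -/
def AllPrime (A : Finset ℕ) : Set ℕ := {n | n.Prime ∧ ∀ a ∈ A, (a * n + 1).Prime}

/-- the polynomial -/
noncomputable def P (A : Finset ℕ) (N : ℕ) : ℤ[X] :=
  (X + C (N : ℤ)) * ∏ a ∈ A, (C (a : ℤ) * (X + C (N : ℤ)) + 1)

theorem P_eval (A : Finset ℕ) (N n : ℕ) : (P A N).eval (n : ℤ) = ((F A (N + n) : ℕ) : ℤ) := by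
  unfold P F
  simp only [eval_mul, eval_add, eval_X, eval_C, eval_prod, eval_one]
  push_cast
  ring_nf

theorem P_deg (A : Finset ℕ) (N : ℕ) : (P A N).natDegree ≤ A.card + 1 := by
  unfold P
  refine natDegree_mul_le.trans ?_
  have h1 : (X + C (N : ℤ)).natDegree ≤ 1 := by
    rw [natDegree_X_add_C]
  have h2 : (∏ a ∈ A, (C (a : ℤ) * (X + C (N : ℤ)) + 1)).natDegree ≤ A.card := by
    refine (natDegree_prod_le _ _).trans ?_
    refine (Finset.sum_le_card_nsmul A _ 1 fun a _ => ?_).trans (by simp)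
    refine (natDegree_add_le _ _).trans (max_le ?_ ?_)
    · refine natDegree_mul_le.trans ?_
      rw [natDegree_C, zero_add]
      exact h1
    · rw [natDegree_one]
      exact Nat.zero_le _
  omega

theorem F_mod (A : Finset ℕ) (p n : ℕ) : p ∣ F A n ↔ p ∣ F A (n % p) := by
  have h : F A n ≡ F A (n % p) [MOD p] := by
    have h1 : n ≡ n % p [MOD p] := (Nat.mod_modEq n p).symm
    unfold F
    refine h1.mul (Nat.ModEq.prod fun a _ => ?_)
    exact (h1.mul_left a).add_right 1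
  exact h.dvd_iff (dvd_refl p)

theorem WG_eq (A : Finset ℕ) (N x : ℕ) :
    Pool.Agent.Y816.PD.WG (fun n => ((F A (N + n) : ℕ) : ℤ)) x = V A x := by
  classical
  unfold Pool.Agent.Y816.PD.WG V
  refine prod_congr rfl fun p hp => ?_
  rw [mem_filter] at hp
  have h1 := Pool.Agent.Y816.PD.shift_eq p N hp.2.pos (fun n => p ∣ F A n) (F_mod A p)
  have h2 : ((range p).filter (fun n : ℕ => (p : ℤ) ∣ ((F A (N + n) : ℕ) : ℤ))).card =
      ((range p).filter (fun n : ℕ => p ∣ F A n)).card := by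
    have e1 : ((range p).filter (fun n : ℕ => (p : ℤ) ∣ ((F A (N + n) : ℕ) : ℤ))) =
        ((range p).filter (fun n : ℕ => p ∣ F A (N + n))) :=
      filter_congr fun n _ => Int.natCast_dvd_natCast
    rw [e1]
    convert h1
  have h3 : ((range p).filter (fun n : ℕ => (p : ℤ) ∣ ((F A (N + n) : ℕ) : ℤ))).card =
      ((range p).filter (fun n : ℕ => p ∣ F A n)).card := h2
  congr 2
  convert congrArg (fun m : ℕ => (m : ℝ)) h3

theorem F_pos (A : Finset ℕ) (n : ℕ) (hn : 0 < n) : 0 < F A n :=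
  Nat.mul_pos hn (Finset.prod_pos fun _ _ => Nat.succ_pos _)

theorem count_eq (b K : ℕ) (E : ℕ → Finset ℕ) (N : ℕ) (S T : Set ℕ) (h : ∀ j, j ∈ T ↔ N + j ∈ S) :
    Pool.Agent.Y816.PD.ND b K E T = count b K E N S := by
  classical
  unfold Pool.Agent.Y816.PD.ND count
  rw [← Set.ncard_coe_finset]
  congr 1
  ext j
  rw [mem_coe, mem_filter, mem_range, h]
  simp only [Set.mem_ofPred_eq]

/-- **Almost primes `n, a n + 1`, `a ∈ A`, with restricted digits.** -/
theorem result (s D : ℕ) :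
    ∃ c : ℝ, 0 < c ∧ ∃ r₀ : ℕ, 2 ≤ r₀ ∧ ∀ r : ℕ, r₀ ≤ r → ∀ b : ℕ, 2 ≤ b → ∃ κ C : ℝ, 0 < κ ∧ 0 < C ∧
      ∀ᶠ K : ℕ in atTop, ∀ A : Finset ℕ, A.card = s → (∀ a ∈ A, 0 < a ∧ a ≤ b ^ (D * K)) →
        Admissible A → ∀ N : ℕ, N ≤ b ^ (D * K) → ∀ E : ℕ → Finset ℕ, (∀ i < K, E i ⊆ range b) →
        (b : ℝ) ^ K ≤ Real.exp (c * K) * ∏ i ∈ range K, ((E i).card : ℝ) →
        ((∃ d ∈ E 0, (F A (N + d)).Coprime b) →
          κ * (∏ i ∈ range K, ((E i).card : ℝ)) * V A (b ^ K) ≤ count b K E N (Almost A r (b ^ K))) ∧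
        (count b K E N (AllPrime A) : ℝ) ≤ C * (∏ i ∈ range K, ((E i).card : ℝ)) * V A (b ^ K) := by
  obtain ⟨c, hc, r₀, hr₀, h⟩ := Pool.Agent.Y816.PD.uni_fun (s + 1) ((D + 2) * (2 * s + 1)) (by omega)
  refine ⟨c, hc, r₀, hr₀, fun r hr b hb => ?_⟩
  obtain ⟨κ, C, hκ, hC, h1⟩ := h r hr b hb
  refine ⟨κ, C, hκ, hC, ?_⟩
  filter_upwards [h1, eventually_ge_atTop 1] with K hK hK1 A hcard hA hadm N hN E hE hprod
  have hb0 : 0 < b := by omega
  have hbK : 2 ≤ b ^ K := by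
    calc 2 ≤ b := hb
      _ = b ^ 1 := (pow_one b).symm
      _ ≤ b ^ K := Nat.pow_le_pow_right hb0 hK1
  have hDK : 1 ≤ b ^ (D * K) := Nat.one_le_pow _ _ hb0
  have hsum : b ^ (D * K) * b ^ K * b ^ K = b ^ ((D + 2) * K) := by
    rw [← pow_add, ← pow_add]
    congr 1
    ring
  -- sizes
  have hsize1 : ∀ n : ℕ, n < b ^ K → N + n ≤ b ^ ((D + 2) * K) := by
    intro n hn
    rw [← hsum]
    calc N + n ≤ b ^ (D * K) + b ^ K := by omega
      _ ≤ b ^ (D * K) * b ^ K + b ^ (D * K) * b ^ K :=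
          Nat.add_le_add (Nat.le_mul_of_pos_right _ (by omega)) (Nat.le_mul_of_pos_left _ (by omega))
      _ = b ^ (D * K) * b ^ K * 2 := by ring
      _ ≤ b ^ (D * K) * b ^ K * b ^ K := Nat.mul_le_mul_left _ hbK
  have hsize2 : ∀ n : ℕ, n < b ^ K → ∀ a ∈ A, a * (N + n) + 1 ≤ b ^ ((D + 2) * K * 2) := by
    intro n hn a ha
    have h2 := hsize1 n hn
    have h3 := (hA a ha).2
    have h5 : 2 * b ^ (D * K) ≤ b ^ ((D + 2) * K) := by
      rw [← hsum]
      calc 2 * b ^ (D * K) ≤ b ^ K * b ^ (D * K) := Nat.mul_le_mul_right _ hbK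
        _ = b ^ (D * K) * b ^ K := Nat.mul_comm _ _
        _ ≤ b ^ (D * K) * b ^ K * b ^ K := Nat.le_mul_of_pos_right _ (by omega)
    have h6 : 1 ≤ b ^ ((D + 2) * K) := Nat.one_le_pow _ _ hb0
    rw [pow_mul, sq]
    calc a * (N + n) + 1 ≤ b ^ (D * K) * b ^ ((D + 2) * K) + b ^ (D * K) * b ^ ((D + 2) * K) :=
          Nat.add_le_add (Nat.mul_le_mul h3 h2) (Nat.mul_pos hDK h6)
      _ = (2 * b ^ (D * K)) * b ^ ((D + 2) * K) := by ring
      _ ≤ b ^ ((D + 2) * K) * b ^ ((D + 2) * K) := Nat.mul_le_mul_right _ h5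
  have hsize : ∀ n : ℕ, n < b ^ K → (((F A (N + n) : ℕ) : ℤ)).natAbs ≤ b ^ ((D + 2) * (2 * s + 1) * K) := by
    intro n hn
    rw [Int.natAbs_natCast]
    unfold F
    calc (N + n) * ∏ a ∈ A, (a * (N + n) + 1) ≤
        b ^ ((D + 2) * K) * (b ^ ((D + 2) * K * 2)) ^ A.card :=
          Nat.mul_le_mul (hsize1 n hn) (Finset.prod_le_pow_card _ _ _ fun a ha => hsize2 n hn a ha)
      _ = b ^ ((D + 2) * (2 * s + 1) * K) := by
          rw [hcard, ← pow_mul, ← pow_add]
          congr 1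
          ring
  obtain ⟨h2, h3⟩ := hK (fun n => ((F A (N + n) : ℕ) : ℤ))
    ⟨P A N, hcard ▸ P_deg A N, fun n => P_eval A N n⟩
    (fun p hp => by
      obtain ⟨m, -, hm⟩ := hadm p hp
      -- a number `n` with `N + n ≡ m`
      refine ⟨m + (p * N - N), fun hd => hm ?_⟩
      have e1 : N + (m + (p * N - N)) = m + p * N := by
        have : N ≤ p * N := Nat.le_mul_of_pos_left N hp.pos
        omega
      have h4 : p ∣ F A (N + (m + (p * N - N))) := Int.natCast_dvd_natCast.1 hd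
      rw [e1, F_mod, Nat.add_mul_mod_self_left, ← F_mod] at h4
      exact h4)
    hsize E hE hprod
  rw [WG_eq] at h2 h3
  unfold Pool.Agent.Y816.PD.NA at h2 h3
  constructor
  · intro hd
    have h4 := h2 (by
      obtain ⟨d, hd1, hd2⟩ := hd
      exact ⟨d, hd1, by rwa [Int.natAbs_natCast]⟩)
    rwa [count_eq b K E N (Almost A r (b ^ K)) _ (fun j => by
      unfold Pool.Agent.Y816.PD.Alm Almost
      simp only [Set.mem_ofPred_eq, Int.natAbs_natCast, Int.natCast_dvd_natCast]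
      exact and_comm)] at h4
  · refine le_trans ?_ h3
    rw [← count_eq b K E N (AllPrime A) {j | N + j ∈ AllPrime A} (fun j => Iff.rfl)]
    have h5 := Pool.Agent.Y816.PD.ND_mono (b := b) (K := K) (A := E) (S := {j | N + j ∈ AllPrime A})
      (T := Pool.Agent.Y816.PD.Rgh (fun n => ((F A (N + n) : ℕ) : ℤ)) r) (fun j hj => by
        intro p hp hd
        have h6 : p ∣ F A (N + j) := Int.natCast_dvd_natCast.1 hd
        have hj' : (N + j).Prime ∧ ∀ a ∈ A, (a * (N + j) + 1).Prime := hj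
        refine Pool.Agent.Y816.PD.lt_pow_of_le hp ?_ (hr₀.trans hr)
        unfold F at h6
        rcases hp.dvd_mul.1 h6 with h7 | h7
        · rw [(Nat.prime_dvd_prime_iff_eq hp hj'.1).1 h7]
          exact Nat.le_add_left _ _
        · obtain ⟨a, ha, h8⟩ := (hp.prime.dvd_finsetProd_iff _).1 h7
          rw [(Nat.prime_dvd_prime_iff_eq hp (hj'.2 a ha)).1 h8]
          have := (hA a ha).1
          nlinarith)
    exact_mod_cast h5

end Pool.Agent.Results.MP_bca3e5_nt.RestrictedDigits
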